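import Mathlib
import Pool.Agent.H744R2.KZ.Props

open scoped ComplexOrder InnerProductSpace ComplexConjugate Topology
open Finset Filter

namespace H744R2.KZ

open H759R2.Kad

universe u

namespace L_famaux

variable {H : Type u} [NormedAddCommGroup H] [InnerProductSpace ℂ H] [CompleteSpace H]

theorem mul_eq_of_star_mul {g e : H →L[ℂ] H} (h : star g * g = e) (he : IsPr e) : g * e = g := by
  have h1 : star (g - g * e) * (g - g * e) = 0 := by
    rw [star_sub, star_mul, he.1]
    have : (star g - e * star g) * (g - g * e) =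
        star g * g - star g * g * e - e * (star g * g) + e * (star g * g) * e := by
      noncomm_ring
    rw [this, h, he.2, he.2]
    simp
  have h2 := CStarRing.star_mul_self_eq_zero_iff (g - g * e) |>.1 h1
  exact (sub_eq_zero.1 h2).symm

/-- the property of the families -/
def PP (M : VonNeumannAlgebra H) (w e : H →L[ℂ] H) (S : Set (H →L[ℂ] H)) : Prop :=
  (∀ g ∈ S, g ∈ M ∧ star g * g = e ∧ w * g = g) ∧ ∀ g ∈ S, ∀ g' ∈ S, g ≠ g' → star g * g' = 0

theorem exists_max (M : VonNeumannAlgebra H) (w e : H →L[ℂ] H) :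
    ∃ S : Set (H →L[ℂ] H), Maximal (PP M w e) S := by
  refine zorn_subset {S | PP M w e S} ?_
  intro c hc hch
  refine ⟨⋃₀ c, ⟨?_, ?_⟩, fun s hs => Set.subset_sUnion_of_mem hs⟩
  · rintro g ⟨s, hs, hg⟩
    exact (hc hs).1 g hg
  · rintro g ⟨s, hs, hg⟩ g' ⟨s', hs', hg'⟩ hne
    rcases hch.total hs hs' with h | h
    · exact (hc hs').2 g (h hg) g' hg' hne
    · exact (hc hs).2 g hg g' (h hg') hne

end L_famaux

open L_famaux in
theorem prove_L_fam (h1 : L_cc.{u}) (h2 : L_max.{u}) (h3 : L_sum.{u}) : L_fam.{u} := by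
  intro H _ _ _ M w e hw he he0 hwe
  obtain ⟨heM, hePr, heAb⟩ := he
  obtain ⟨⟨hws, hww⟩, hwM, hwc⟩ := hw
  obtain ⟨S, hS⟩ := exists_max M w e
  have hSP : PP M w e S := hS.prop
  have hgM : ∀ i : S, (i : H →L[ℂ] H) ∈ M := fun i => (hSP.1 i i.2).1
  have hge : ∀ i : S, star (i : H →L[ℂ] H) * i = e := fun i => (hSP.1 i i.2).2.1
  have hwg : ∀ i : S, w * (i : H →L[ℂ] H) = i := fun i => (hSP.1 i i.2).2.2
  have horth : ∀ i j : S, i ≠ j → star (i : H →L[ℂ] H) * j = 0 := fun i j hij =>
    hSP.2 i i.2 j j.2 (fun h => hij (Subtype.ext h))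
  have hg2 : ∀ i : S, (i : H →L[ℂ] H) * e = i := fun i => mul_eq_of_star_mul (hge i) hePr
  have hPI : ∀ i : S, IsPI (i : H →L[ℂ] H) := by
    intro i
    show (i : H →L[ℂ] H) * star (i : H →L[ℂ] H) * i = i
    rw [mul_assoc, hge, hg2]
  obtain ⟨Q, hQM, hQ1, hQ2, -, hQ4⟩ := h3 H M S (fun i => (i : H →L[ℂ] H))
    (fun i => (i : H →L[ℂ] H)) hgM hgM hPI (fun _ => rfl) horth horth
  -- Q is a projection
  have hQQ : Q * Q = Q := by
    have := hQ4 (Q - 1) (fun i => by rw [sub_mul, one_mul, hQ1, sub_self])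
    rw [sub_mul, one_mul, sub_eq_zero] at this
    exact this
  have hQs' : star Q * Q = Q := by
    have := hQ4 (star Q - 1) (fun i => by rw [sub_mul, one_mul, hQ2, sub_self])
    rw [sub_mul, one_mul, sub_eq_zero] at this
    exact this
  have hQs : star Q = Q := by
    have h := congrArg star hQs'
    rw [star_mul, star_star, hQs'] at h
    exact h.symm
  have hwQ : w * Q = Q := by
    have := hQ4 (w - 1) (fun i => by rw [sub_mul, one_mul, hwg, sub_self])
    rw [sub_mul, one_mul, sub_eq_zero] at this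
    exact this
  have hQw : Q * w = Q := by rw [← hwc Q hQM, hwQ]
  -- r
  set r : H →L[ℂ] H := w - Q with hr
  have hrM : r ∈ M := sub_mem hwM hQM
  have hrs : star r = r := by rw [hr, star_sub, hws, hQs]
  have hrr : r * r = r := by
    rw [hr, sub_mul, mul_sub, mul_sub, hww, hwQ, hQw, hQQ]; abel
  have hwr : w * r = r := by rw [hr, mul_sub, hww, hwQ]
  have hgr : ∀ i : S, star (i : H →L[ℂ] H) * r = 0 := by
    intro i
    have a1 : star (i : H →L[ℂ] H) * w = star (i : H →L[ℂ] H) := by
      have := congrArg star (hwg i)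
      rwa [star_mul, hws] at this
    have a2 : star (i : H →L[ℂ] H) * Q = star (i : H →L[ℂ] H) := by
      have := congrArg star (hQ2 i)
      rwa [star_mul, star_star] at this
    rw [hr, mul_sub, a1, a2, sub_self]
  -- maximal partial isometry
  obtain ⟨v, hvM, hvPI, hve, hrv, hkill⟩ := h2 H M e heM r hrM hePr ⟨hrs, hrr⟩
  have hvPI' : v * star v * v = v := hvPI
  have hsvM : star v ∈ M := star_mem hvM
  have hwv : w * v = v := by rw [← hrv, ← mul_assoc, hwr]
  have hqe : e * (star v * v) = star v * v := by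
    have : e * star v = star v := by
      have := congrArg star hve
      rwa [star_mul, hePr.1] at this
    rw [← mul_assoc, this]
  have hqe' : star v * v * e = star v * v := by rw [mul_assoc, hve]
  have hqq : star v * v * (star v * v) = star v * v := by
    rw [mul_assoc, ← mul_assoc v (star v) v, hvPI']
  obtain ⟨c, ⟨⟨hcs, hcc⟩, hcM, hccen⟩, hqc⟩ := heAb (star v * v) (mul_mem hsvM hvM)
    ⟨by rw [star_mul, star_star], hqq⟩ hqe
  have hne : star v * v ≠ e := by
    intro heq
    have hgv : ∀ i : S, star (i : H →L[ℂ] H) * v = 0 := by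
      intro i
      rw [← hrv, ← mul_assoc, hgr, zero_mul]
    have hins : PP M w e (insert v S) := by
      refine ⟨?_, ?_⟩
      · intro g hg
        rcases Set.mem_insert_iff.1 hg with rfl | hg
        · exact ⟨hvM, heq, hwv⟩
        · exact hSP.1 g hg
      · intro g hg g' hg' hgg
        rcases Set.mem_insert_iff.1 hg with e1 | k1
        · rcases Set.mem_insert_iff.1 hg' with e2 | k2
          · exact absurd (e1.trans e2.symm) hgg
          · rw [e1]
            have := congrArg star (hgv ⟨g', k2⟩)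
            rwa [star_mul, star_star, star_zero] at this
        · rcases Set.mem_insert_iff.1 hg' with e2 | k2
          · rw [e2]
            exact hgv ⟨g, k1⟩
          · exact hSP.2 g k1 g' k2 hgg
    have hvS : v ∈ S := hS.le_of_ge hins (Set.subset_insert v S) (Set.mem_insert v S)
    exact he0 (by rw [← heq]; exact hgv ⟨v, hvS⟩)
  -- e'
  set e' : H →L[ℂ] H := e - star v * v with he'
  have he'0 : e' ≠ 0 := fun h => hne (sub_eq_zero.1 h).symm
  have he'M : e' ∈ M := sub_mem heM (mul_mem hsvM hvM)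
  have he'Pr : IsPr e' := by
    refine ⟨by rw [he', star_sub, hePr.1, star_mul, star_star], ?_⟩
    rw [he', sub_mul, mul_sub, mul_sub, hePr.2, hqe, hqe', hqq]; abel
  obtain ⟨z, ⟨⟨hzs, hzz⟩, hzM, hzc⟩, hze', hzkill⟩ := h1 H M e' he'M he'Pr
  have hz0 : z ≠ 0 := by
    intro h
    rw [h, zero_mul] at hze'
    exact he'0 hze'.symm
  have hrz : (r - v * star v) * z = 0 := hzkill _ (fun a ha => hkill a ha)
  have hce' : c * e' = 0 := by
    rw [he', hqc, mul_sub, ← mul_assoc, hcc, sub_self]
  have hcz : c * z = 0 := hzkill c (fun a ha => by rw [hccen a ha, mul_assoc, hce', mul_zero])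
  have hwe' : w * e' = e' := by
    rw [he', hqc, mul_sub, hwe, ← mul_assoc, hwc c hcM, mul_assoc, hwe]
  have hwz1 : (1 - w) * z = 0 := hzkill (1 - w) (fun a ha => by
    rw [sub_mul, one_mul, hwc a ha, sub_mul, mul_assoc, hwe', sub_self])
  have hwz : w * z = z := by
    rw [sub_mul, one_mul, sub_eq_zero] at hwz1
    exact hwz1.symm
  have hvz : v * z = 0 := by
    have a1 : v * (c * e) = v := by rw [← hqc, ← mul_assoc, hvPI']
    calc v * z = v * (c * e) * z := by rw [a1]
      _ = v * (c * (e * z)) := by rw [mul_assoc, mul_assoc]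
      _ = v * (c * (z * e)) := by rw [hzc e heM]
      _ = v * (c * z * e) := by rw [mul_assoc]
      _ = 0 := by rw [hcz, zero_mul, mul_zero]
  have hrz0 : r * z = 0 := by
    rw [sub_mul, sub_eq_zero] at hrz
    rw [hrz, mul_assoc, ← hzc (star v) hsvM, ← mul_assoc, hvz, zero_mul]
  have hzQ : z * Q = z := by
    have : z * w = z := by rw [← hwc z hzM, hwz]
    have h5 : z * r = 0 := by rw [hzc r hrM, hrz0]
    rw [hr, mul_sub, this, sub_eq_zero] at h5
    exact h5.symm
  refine ⟨z, ⟨⟨hzs, hzz⟩, hzM, hzc⟩, hz0, hwz, S, fun i => z * (i : H →L[ℂ] H),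
    fun i => mul_mem hzM (hgM i), ?_, ?_, ?_, ?_⟩
  · intro i
    rw [star_mul, hzs, mul_assoc, ← mul_assoc z z, hzz, ← mul_assoc,
      ← hzc (star (i : H →L[ℂ] H)) (star_mem (hgM i)), mul_assoc, hge]
  · intro i j hij
    rw [star_mul, hzs, mul_assoc, ← mul_assoc z z, hzz, ← mul_assoc,
      ← hzc (star (i : H →L[ℂ] H)) (star_mem (hgM i)), mul_assoc, horth i j hij, mul_zero]
  · intro i
    rw [← mul_assoc, hzz]
  · intro x hx
    have h6 := hQ4 (x * z) (fun i => by rw [mul_assoc]; exact hx i)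
    rwa [mul_assoc, hzQ] at h6

end H744R2.KZ
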