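import Mathlib
import Pool.Agent.H770R2.Kad.HProps

open scoped ComplexOrder InnerProductSpace

noncomputable section

namespace H770R2.Kad

open H759R2.Kad

universe u v

namespace PIETaux

variable {A : Type u} [CStarAlgebra A]

section order

variable [PartialOrder A] [StarOrderedRing A] [Nontrivial A]

theorem nlt {a : A} (ha : 0 ≤ a) {α t : ℝ} (h : ‖a - α • (1 : A) + t • (1 : A)‖ < t) :
    ‖a‖ < α := by
  set b : A := a - α • (1 : A) + t • (1 : A) with hb
  have hsa : IsSelfAdjoint b := by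
    have h1 : IsSelfAdjoint a := IsSelfAdjoint.of_nonneg ha
    have h2 : ∀ s : ℝ, IsSelfAdjoint (s • (1 : A)) := fun s =>
      (IsSelfAdjoint.all s).smul (IsSelfAdjoint.one A)
    exact (h1.sub (h2 α)).add (h2 t)
  have h3 : b ≤ algebraMap ℝ A ‖b‖ := hsa.le_algebraMap_norm_self
  have h4 : a ≤ algebraMap ℝ A (‖b‖ + α - t) := by
    have e : a = b + algebraMap ℝ A (α - t) := by
      rw [hb, Algebra.algebraMap_eq_smul_one, sub_smul]; abel
    calc a = b + algebraMap ℝ A (α - t) := e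
      _ ≤ algebraMap ℝ A ‖b‖ + algebraMap ℝ A (α - t) := by gcongr
      _ = algebraMap ℝ A (‖b‖ + α - t) := by rw [← map_add]; congr 1; ring
  have h5 : 0 ≤ ‖b‖ + α - t := by
    by_contra hneg
    push Not at hneg
    have h6 : (0 : A) ≤ algebraMap ℝ A (‖b‖ + α - t) := ha.trans h4
    have h7 : (0 : A) ≤ algebraMap ℝ A (-(‖b‖ + α - t)) :=
      algebraMap_nonneg A (by linarith)
    rw [map_neg] at h7
    have h8 : algebraMap ℝ A (‖b‖ + α - t) = 0 := le_antisymm (neg_nonneg.1 h7) h6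
    have h9 := (FaithfulSMul.algebraMap_eq_zero_iff ℝ A).1 h8
    linarith
  have h6 := (CStarAlgebra.norm_le_iff_le_algebraMap a h5 ha).2 h4
  linarith

omit [Nontrivial A] in
theorem norm_shift {p : A} (hp : 0 ≤ p) {s : ℝ} (hs : ‖p‖ ≤ s) : ‖s • (1 : A) - p‖ ≤ s := by
  have h0 : 0 ≤ s := (norm_nonneg _).trans hs
  have h1 : p ≤ algebraMap ℝ A s := (CStarAlgebra.norm_le_iff_le_algebraMap p h0 hp).1 hs
  rw [Algebra.algebraMap_eq_smul_one] at h1
  have h2 : 0 ≤ s • (1 : A) - p := sub_nonneg.2 h1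
  refine (CStarAlgebra.norm_le_iff_le_algebraMap _ h0 h2).2 ?_
  rw [Algebra.algebraMap_eq_smul_one]
  exact sub_le_self _ hp

end order

/-- the open cone around `(-1, -1)` -/
def NN : Set (A × A) := {p | ∃ t : ℝ, 0 < t ∧ ‖p.1 + t • (1 : A)‖ < t ∧ ‖p.2 + t • (1 : A)‖ < t}

theorem NN_open : IsOpen (NN : Set (A × A)) := by
  have e : (NN : Set (A × A)) = ⋃ t : ℝ, {p : A × A | 0 < t ∧ ‖p.1 + t • (1 : A)‖ < t ∧
      ‖p.2 + t • (1 : A)‖ < t} := by
    ext p; simp [NN]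
  rw [e]
  refine isOpen_iUnion fun t => ?_
  refine IsOpen.inter (t := {p : A × A | ‖p.1 + t • (1 : A)‖ < t ∧ ‖p.2 + t • (1 : A)‖ < t})
    isOpen_const ?_
  refine IsOpen.inter (s := {p : A × A | ‖p.1 + t • (1 : A)‖ < t})
    (t := {p : A × A | ‖p.2 + t • (1 : A)‖ < t}) ?_ ?_
  · exact isOpen_lt (by fun_prop) continuous_const
  · exact isOpen_lt (by fun_prop) continuous_const

theorem NN_convex : Convex ℝ (NN : Set (A × A)) := by
  have key : ∀ (x y : A) (t t' s s' : ℝ), ‖x + t • (1 : A)‖ < t → ‖y + t' • (1 : A)‖ < t' →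
      0 ≤ s → 0 ≤ s' → s + s' = 1 →
      ‖(s • x + s' • y) + (s * t + s' * t') • (1 : A)‖ < s * t + s' * t' := by
    intro x y t t' s s' h1 h2 hs hs' hss
    have e : (s • x + s' • y) + (s * t + s' * t') • (1 : A) =
        s • (x + t • (1 : A)) + s' • (y + t' • (1 : A)) := by
      rw [smul_add, smul_add, smul_smul, smul_smul, add_smul]; abel
    rw [e]
    have h3 : ‖s • (x + t • (1 : A)) + s' • (y + t' • (1 : A))‖ ≤
        s * ‖x + t • (1 : A)‖ + s' * ‖y + t' • (1 : A)‖ := by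
      refine (norm_add_le _ _).trans ?_
      rw [norm_smul, norm_smul, Real.norm_of_nonneg hs, Real.norm_of_nonneg hs']
    rcases eq_or_lt_of_le hs with h | h
    · have hs1 : s' = 1 := by linarith
      rw [← h, hs1] at h3 ⊢
      linarith
    · have a1 : s * ‖x + t • (1 : A)‖ < s * t := mul_lt_mul_of_pos_left h1 h
      have a2 : s' * ‖y + t' • (1 : A)‖ ≤ s' * t' := mul_le_mul_of_nonneg_left h2.le hs'
      linarith
  rintro ⟨x, y⟩ ⟨t, ht, h1, h2⟩ ⟨x', y'⟩ ⟨t', ht', h1', h2'⟩ s s' hs hs' hss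
  refine ⟨s * t + s' * t', ?_, key _ _ _ _ _ _ h1 h1' hs hs' hss,
    key _ _ _ _ _ _ h2 h2' hs hs' hss⟩
  rcases eq_or_lt_of_le hs with h | h
  · have hs1 : s' = 1 := by linarith
    rw [← h, hs1]; linarith
  · have := mul_pos h ht
    have := mul_nonneg hs' ht'.le
    linarith

variable {K : Type v} [NormedAddCommGroup K] [InnerProductSpace ℂ K]

/-- the cone of the families -/
def WW (T : A →ₗ[ℂ] K) (c : ℝ) : Set (A × A) :=
  {p | ∃ (κ : Type) (_ : Fintype κ) (x : κ → A) (α β : ℝ), α + β = c * ∑ k, ‖T (x k)‖ ^ 2 ∧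
    p.1 = ∑ k, star (x k) * x k - α • (1 : A) ∧ p.2 = ∑ k, x k * star (x k) - β • (1 : A)}

theorem WW_add (T : A →ₗ[ℂ] K) (c : ℝ) {p q : A × A} (hp : p ∈ WW T c) (hq : q ∈ WW T c) :
    p + q ∈ WW T c := by
  obtain ⟨κ, i1, x, α, β, h1, h2, h3⟩ := hp
  obtain ⟨κ', i2, x', α', β', h1', h2', h3'⟩ := hq
  refine ⟨κ ⊕ κ', inferInstance, Sum.elim x x', α + α', β + β', ?_, ?_, ?_⟩
  · rw [Fintype.sum_sum_type]
    simp only [Sum.elim_inl, Sum.elim_inr]
    rw [mul_add, ← h1, ← h1']; ring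
  · rw [Fintype.sum_sum_type]
    simp only [Sum.elim_inl, Sum.elim_inr, Prod.fst_add]
    rw [h2, h2', add_smul]; abel
  · rw [Fintype.sum_sum_type]
    simp only [Sum.elim_inl, Sum.elim_inr, Prod.snd_add]
    rw [h3, h3', add_smul]; abel

theorem WW_smul (T : A →ₗ[ℂ] K) (c : ℝ) {p : A × A} (hp : p ∈ WW T c) {s : ℝ} (hs : 0 ≤ s) :
    s • p ∈ WW T c := by
  obtain ⟨κ, i1, x, α, β, h1, h2, h3⟩ := hp
  set r : ℂ := ((√s : ℝ) : ℂ) with hr
  have hrr : star r * r = ((s : ℝ) : ℂ) := by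
    rw [hr, Complex.star_def, Complex.conj_ofReal, ← Complex.ofReal_mul, Real.mul_self_sqrt hs]
  have hrr' : r * star r = ((s : ℝ) : ℂ) := by rw [mul_comm, hrr]
  have hn : ‖r‖ ^ 2 = s := by
    rw [hr, Complex.norm_real, Real.norm_of_nonneg (Real.sqrt_nonneg _), Real.sq_sqrt hs]
  refine ⟨κ, i1, fun k => r • x k, s * α, s * β, ?_, ?_, ?_⟩
  · rw [← mul_add, h1]
    have : ∀ k, ‖T (r • x k)‖ ^ 2 = s * ‖T (x k)‖ ^ 2 := by
      intro k
      rw [map_smul, norm_smul, mul_pow, hn]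
    simp only [this]
    rw [← Finset.mul_sum]; ring
  · have : ∀ k, star (r • x k) * (r • x k) = s • (star (x k) * x k) := by
      intro k
      rw [star_smul, smul_mul_smul_comm, hrr, Complex.coe_smul]
    simp only [this, Prod.smul_fst]
    rw [h2, smul_sub, Finset.smul_sum, smul_smul]
  · have : ∀ k, (r • x k) * star (r • x k) = s • (x k * star (x k)) := by
      intro k
      rw [star_smul, smul_mul_smul_comm, hrr', Complex.coe_smul]
    simp only [this, Prod.smul_snd]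
    rw [h3, smul_sub, Finset.smul_sum, smul_smul]

theorem WW_convex (T : A →ₗ[ℂ] K) (c : ℝ) : Convex ℝ (WW T c) :=
  fun _ hp _ hq _ _ hs hs' _ => WW_add T c (WW_smul T c hp hs) (WW_smul T c hq hs')

/-- complexification of a real functional -/
def cx (f : A →ₗ[ℝ] ℝ) : A →ₗ[ℂ] ℂ where
  toFun x := (f (realPart x : A) : ℂ) + Complex.I * (f (imaginaryPart x : A) : ℂ)
  map_add' x y := by
    simp only [map_add, AddSubgroup.coe_add, Complex.ofReal_add]
    ring
  map_smul' z x := by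
    simp only [realPart_smul, imaginaryPart_smul, RingHom.id_apply, smul_eq_mul]
    simp only [AddSubgroupClass.coe_sub, AddSubgroup.coe_add, selfAdjoint.val_smul, map_sub,
      map_add, map_smul, smul_eq_mul]
    apply Complex.ext <;> simp

theorem cx_sa (f : A →ₗ[ℝ] ℝ) {x : A} (hx : IsSelfAdjoint x) : cx f x = (f x : ℂ) := by
  show (f (realPart x : A) : ℂ) + Complex.I * (f (imaginaryPart x : A) : ℂ) = _
  rw [hx.coe_realPart, hx.imaginaryPart]
  simp

end PIETaux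

open PIETaux in
theorem piet_pos (h : St_gt.{u, v}) (A : Type u) [CStarAlgebra A] [PartialOrder A]
    [StarOrderedRing A] [Nontrivial A]
    (K : Type v) [NormedAddCommGroup K] [InnerProductSpace ℂ K] [CompleteSpace K]
    (T : A →ₗ[ℂ] K) (M : ℝ) (hM : 0 < M) (hT : ∀ b, ‖T b‖ ≤ M * ‖b‖) :
    ∃ φ ψ : A →ₗ[ℂ] ℂ, φ 1 = 1 ∧ ψ 1 = 1 ∧ (∀ a, 0 ≤ φ (star a * a)) ∧
      (∀ a, 0 ≤ ψ (star a * a)) ∧
      ∀ a, ‖T a‖ ^ 2 ≤ 3 * M ^ 2 * ((φ (star a * a)).re + (ψ (a * star a)).re) := by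
  set c : ℝ := (3 * M ^ 2)⁻¹ with hc
  have h3M : 0 < 3 * M ^ 2 := by positivity
  have hc0 : 0 < c := inv_pos.2 h3M
  have hdisj : Disjoint (NN : Set (A × A)) (WW T c) := by
    rw [Set.disjoint_left]
    rintro ⟨p, q⟩ ⟨t, ht, hp, hq⟩ ⟨κ, i1, x, α, β, e1, e2, e3⟩
    simp only at hp hq e2 e3
    rw [e2] at hp
    rw [e3] at hq
    have a1 := nlt (Finset.sum_nonneg fun k _ => star_mul_self_nonneg (x k)) hp
    have a2 := nlt (Finset.sum_nonneg fun k _ => mul_star_self_nonneg (x k)) hq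
    have a3 := h A K T M hM.le hT κ x
    have a4 : α + β ≤ ‖∑ k, star (x k) * x k‖ + ‖∑ k, x k * star (x k)‖ := by
      rw [e1, hc, inv_mul_le_iff₀ h3M]
      exact a3
    linarith
  obtain ⟨f, u, hf1, hf2⟩ := geometric_hahn_banach_open NN_convex NN_open (WW_convex T c) hdisj
  have hW0 : (0 : A × A) ∈ WW T c :=
    ⟨Empty, inferInstance, fun k => 0, 0, 0, by simp, by simp, by simp⟩
  have hu : u ≤ 0 := by
    have := hf2 0 hW0
    rwa [map_zero] at this
  have hN : ∀ n ∈ (NN : Set (A × A)), f n < 0 := fun n hn => (hf1 n hn).trans_le hu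
  have hW : ∀ w ∈ WW T c, 0 ≤ f w := by
    intro w hw
    by_contra hneg
    push Not at hneg
    have h1 := hf2 ((((-u) + 1) / (-(f w))) • w)
      (WW_smul T c hw (div_nonneg (by linarith) (by linarith)))
    rw [map_smul, smul_eq_mul] at h1
    have h2 : ((-u) + 1) / (-(f w)) * f w = u - 1 := by
      have : f w ≠ 0 := hneg.ne
      field_simp
      ring
    rw [h2] at h1
    linarith
  -- the two real functionals
  let f1 : A →ₗ[ℝ] ℝ := f.toLinearMap.comp (LinearMap.inl ℝ A A)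
  let f2 : A →ₗ[ℝ] ℝ := f.toLinearMap.comp (LinearMap.inr ℝ A A)
  have hf : ∀ x y : A, f (x, y) = f1 x + f2 y := by
    intro x y
    show f (x, y) = f (x, 0) + f (0, y)
    rw [← map_add]
    simp
  have hsum : 0 < f1 1 + f2 1 := by
    have h1 : ((-1 : A), (-1 : A)) ∈ (NN : Set (A × A)) :=
      ⟨1, one_pos, by simp, by simp⟩
    have h2 := hN _ h1
    rw [hf, map_neg, map_neg] at h2
    linarith
  have heq : f1 1 = f2 1 := by
    have h1 : ((-1 : A), (1 : A)) ∈ WW T c :=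
      ⟨Empty, inferInstance, fun k => 0, 1, -1, by simp, by simp, by simp⟩
    have h2 : ((1 : A), (-1 : A)) ∈ WW T c :=
      ⟨Empty, inferInstance, fun k => 0, -1, 1, by simp, by simp, by simp⟩
    have h3 := hW _ h1
    have h4 := hW _ h2
    rw [hf, map_neg] at h3 h4
    linarith
  have hc1 : 0 < f1 1 := by linarith
  have hpos : ∀ p : A, 0 ≤ p → 0 ≤ f1 p ∧ 0 ≤ f2 p := by
    intro p hp
    have hmem : ∀ ε : ℝ, 0 < ε → ((-p - ε • (1 : A)), (-(ε • (1 : A)))) ∈ (NN : Set (A × A)) ∧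
        ((-(ε • (1 : A))), (-p - ε • (1 : A))) ∈ (NN : Set (A × A)) := by
      intro ε hε
      have e1 : -p - ε • (1 : A) + (‖p‖ + ε) • (1 : A) = ‖p‖ • (1 : A) - p := by
        rw [add_smul]; abel
      have e2 : -(ε • (1 : A)) + (‖p‖ + ε) • (1 : A) = ‖p‖ • (1 : A) := by
        rw [add_smul]; abel
      have b1 : ‖-p - ε • (1 : A) + (‖p‖ + ε) • (1 : A)‖ < ‖p‖ + ε := by
        rw [e1]
        have := norm_shift hp le_rfl
        linarith
      have b2 : ‖-(ε • (1 : A)) + (‖p‖ + ε) • (1 : A)‖ < ‖p‖ + ε := by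
        rw [e2, norm_smul, norm_one, mul_one, norm_norm]
        linarith
      have b3 : 0 < ‖p‖ + ε := by positivity
      exact ⟨⟨‖p‖ + ε, b3, b1, b2⟩, ⟨‖p‖ + ε, b3, b2, b1⟩⟩
    constructor
    · by_contra hneg
      push Not at hneg
      have h1 := hN _ (hmem (-(f1 p) / (f1 1 + f2 1)) (div_pos (by linarith) hsum)).1
      rw [hf, map_sub, map_neg, map_neg, map_smul, map_smul, smul_eq_mul, smul_eq_mul] at h1
      have h2 : -(f1 p) / (f1 1 + f2 1) * f1 1 + -(f1 p) / (f1 1 + f2 1) * f2 1 = -(f1 p) := by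
        field_simp
        ring
      linarith
    · by_contra hneg
      push Not at hneg
      have h1 := hN _ (hmem (-(f2 p) / (f1 1 + f2 1)) (div_pos (by linarith) hsum)).2
      rw [hf, map_sub, map_neg, map_neg, map_smul, map_smul, smul_eq_mul, smul_eq_mul] at h1
      have h2 : -(f2 p) / (f1 1 + f2 1) * f1 1 + -(f2 p) / (f1 1 + f2 1) * f2 1 = -(f2 p) := by
        field_simp
        ring
      linarith
  have hcast : ∀ (g : A →ₗ[ℝ] ℝ), (∀ p : A, 0 ≤ p → 0 ≤ g p) → 0 < g 1 →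
      (((g 1)⁻¹ : ℝ) : ℂ) • cx g 1 = 1 ∧ (∀ a : A, IsSelfAdjoint a →
        (((g 1)⁻¹ : ℝ) : ℂ) • cx g a = (((g 1)⁻¹ * g a : ℝ) : ℂ)) := by
    intro g _ hg1
    refine ⟨?_, ?_⟩
    · rw [cx_sa g (IsSelfAdjoint.one A), smul_eq_mul, ← Complex.ofReal_mul,
        inv_mul_cancel₀ hg1.ne', Complex.ofReal_one]
    · intro a ha
      rw [cx_sa g ha, smul_eq_mul, ← Complex.ofReal_mul]
  have hf2pos : 0 < f2 1 := by rw [← heq]; exact hc1
  obtain ⟨k1, k2⟩ := hcast f1 (fun p hp => (hpos p hp).1) hc1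
  obtain ⟨k3, k4⟩ := hcast f2 (fun p hp => (hpos p hp).2) hf2pos
  refine ⟨(((f1 1)⁻¹ : ℝ) : ℂ) • cx f1, (((f2 1)⁻¹ : ℝ) : ℂ) • cx f2, k1, k3, ?_, ?_, ?_⟩
  · intro a
    rw [LinearMap.smul_apply, k2 _ (IsSelfAdjoint.star_mul_self a)]
    exact Complex.zero_le_real.2 (mul_nonneg (inv_nonneg.2 hc1.le)
      (hpos _ (star_mul_self_nonneg a)).1)
  · intro a
    rw [LinearMap.smul_apply, k4 _ (IsSelfAdjoint.star_mul_self a)]
    exact Complex.zero_le_real.2 (mul_nonneg (inv_nonneg.2 hf2pos.le)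
      (hpos _ (star_mul_self_nonneg a)).2)
  · intro a
    rw [LinearMap.smul_apply, LinearMap.smul_apply, k2 _ (IsSelfAdjoint.star_mul_self a),
      k4 _ (IsSelfAdjoint.mul_star_self a), Complex.ofReal_re, Complex.ofReal_re]
    have hmem : ((star a * a - (c * ‖T a‖ ^ 2) • (1 : A)), (a * star a)) ∈ WW T c :=
      ⟨Unit, inferInstance, fun _ => a, c * ‖T a‖ ^ 2, 0, by simp, by simp, by simp⟩
    have h5 := hW _ hmem
    rw [hf, map_sub, map_smul, smul_eq_mul] at h5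
    rw [← heq, ← mul_add]
    have h6 : c * ‖T a‖ ^ 2 ≤ (f1 1)⁻¹ * (f1 (star a * a) + f2 (a * star a)) := by
      rw [le_inv_mul_iff₀ hc1]
      linarith
    rw [hc, inv_mul_le_iff₀ h3M] at h6
    exact h6

theorem prove_piet (h : St_gt.{u, v}) : H_piet.{u, v} := by
  intro A _ _ _ _ K _ _ _ T M hM hT
  rcases eq_or_lt_of_le hM with hM0 | hM0
  · have hT0 : ∀ b, T b = 0 := by
      intro b
      have := hT b
      rw [← hM0, zero_mul] at this
      exact norm_le_zero_iff.1 this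
    obtain ⟨φ, ψ, h1, h2, h3, h4, -⟩ := piet_pos h A K T 1 one_pos (fun b => by
      rw [hT0, norm_zero]; positivity)
    refine ⟨φ, ψ, h1, h2, h3, h4, fun a => ?_⟩
    rw [hT0, ← hM0]
    simp
  · exact piet_pos h A K T M hM0 hT

end H770R2.Kad
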